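import Mathlib

set_option autoImplicit false

/-!
Traces of the powers of a rational endomorphism of finite order.
-/

namespace Pool.Agent.Y210.KN

open Module

/-- The traces of the powers of an endomorphism of order dividing `n`. -/
theorem trace_pow_eq_sum (K : Type*) [Field K] [CharZero K] (W : Type*) [AddCommGroup W]
    [Module K W] [FiniteDimensional K W] (U : W →ₗ[K] W) (n : ℕ) (hn : 0 < n) (hUn : U ^ n = 1)
    (ζ : K) (hζ : IsPrimitiveRoot ζ n) :
    ∃ m : ℕ → ℕ, ∀ k : ℕ, LinearMap.trace K W (U ^ k) =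
      ∑ i ∈ Finset.range n, ζ ^ (i * k) * (m i : K) := by
  classical
  have hζ0 : ζ ≠ 0 := hζ.ne_zero hn.ne'
  have hζn : ζ ^ n = 1 := hζ.pow_eq_one
  have hnK : (n : K) ≠ 0 := Nat.cast_ne_zero.2 hn.ne'
  -- the idempotents
  let P : ℕ → (W →ₗ[K] W) := fun i =>
    (n : K)⁻¹ • ∑ k ∈ Finset.range n, ((ζ⁻¹) ^ (i * k)) • U ^ k
  have hUP : ∀ i, U * P i = ζ ^ i • P i := by
    intro i
    have e1 : U * (∑ k ∈ Finset.range n, ((ζ⁻¹) ^ (i * k)) • U ^ k) =
        ζ ^ i • ∑ k ∈ Finset.range n, ((ζ⁻¹) ^ (i * (k + 1))) • U ^ (k + 1) := by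
      rw [Finset.mul_sum, Finset.smul_sum]
      refine Finset.sum_congr rfl fun k _ => ?_
      rw [mul_smul_comm, smul_smul, ← pow_succ']
      congr 1
      rw [mul_add, mul_one, pow_add, mul_comm ((ζ⁻¹) ^ (i * k)), ← mul_assoc, ← mul_pow,
        mul_inv_cancel₀ hζ0, one_pow, one_mul]
    have e2 : ∑ k ∈ Finset.range n, ((ζ⁻¹) ^ (i * (k + 1))) • U ^ (k + 1) =
        ∑ k ∈ Finset.range n, ((ζ⁻¹) ^ (i * k)) • U ^ k := by
      have h1 := Finset.sum_range_succ (fun k => ((ζ⁻¹) ^ (i * k)) • U ^ k) n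
      have h2 := Finset.sum_range_succ' (fun k => ((ζ⁻¹) ^ (i * k)) • U ^ k) n
      have h3 : ((ζ⁻¹) ^ (i * n)) • U ^ n = ((ζ⁻¹) ^ (i * 0)) • U ^ 0 := by
        rw [hUn, mul_zero, pow_zero, pow_zero, mul_comm i n, pow_mul, inv_pow, hζn, inv_one,
          one_pow]
      rw [h3] at h1
      exact add_right_cancel (h2.symm.trans h1)
    show U * ((n : K)⁻¹ • ∑ k ∈ Finset.range n, ((ζ⁻¹) ^ (i * k)) • U ^ k) = _
    rw [mul_smul_comm, e1, e2, smul_comm]
  have hUkP : ∀ i k, U ^ k * P i = ζ ^ (i * k) • P i := by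
    intro i k
    induction k with
    | zero => rw [pow_zero, one_mul, mul_zero, pow_zero, one_smul]
    | succ k ih =>
      rw [pow_succ', mul_assoc, ih, mul_smul_comm, hUP, smul_smul, ← pow_add, mul_add, mul_one]
  have hidem : ∀ i, P i * P i = P i := by
    intro i
    have e1 : P i * P i = (n : K)⁻¹ • ∑ k ∈ Finset.range n, ((ζ⁻¹) ^ (i * k)) • (U ^ k * P i) := by
      conv_lhs =>
        lhs
        change (n : K)⁻¹ • ∑ k ∈ Finset.range n, ((ζ⁻¹) ^ (i * k)) • U ^ k
      rw [smul_mul_assoc, Finset.sum_mul]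
      simp only [smul_mul_assoc]
    rw [e1]
    have e2 : ∀ k ∈ Finset.range n, ((ζ⁻¹) ^ (i * k)) • (U ^ k * P i) = P i := by
      intro k _
      rw [hUkP, smul_smul, ← mul_pow, inv_mul_cancel₀ hζ0, one_pow, one_smul]
    rw [Finset.sum_congr rfl e2, Finset.sum_const, Finset.card_range, ← Nat.cast_smul_eq_nsmul K,
      smul_smul, inv_mul_cancel₀ hnK, one_smul]
  have hsum : ∑ i ∈ Finset.range n, P i = 1 := by
    show ∑ i ∈ Finset.range n, (n : K)⁻¹ • ∑ k ∈ Finset.range n, ((ζ⁻¹) ^ (i * k)) • U ^ k = 1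
    rw [← Finset.smul_sum, Finset.sum_comm]
    have e1 : ∀ k ∈ Finset.range n, ∑ i ∈ Finset.range n, ((ζ⁻¹) ^ (i * k)) • U ^ k =
        if k = 0 then (n : K) • (1 : W →ₗ[K] W) else 0 := by
      intro k hk
      rw [← Finset.sum_smul]
      split_ifs with h
      · subst h
        simp
      · have h1 : ((ζ⁻¹) ^ k) ≠ 1 := by
          rw [inv_pow, ne_eq, inv_eq_one]
          exact hζ.pow_ne_one_of_pos_of_lt h (Finset.mem_range.1 hk)
        have h2 : ∑ i ∈ Finset.range n, ((ζ⁻¹) ^ (i * k)) = 0 := by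
          have h3 : ∀ i ∈ Finset.range n, ((ζ⁻¹) ^ (i * k)) = ((ζ⁻¹) ^ k) ^ i := by
            intro i _
            rw [← pow_mul, mul_comm]
          rw [Finset.sum_congr rfl h3]
          have h4 := mul_neg_geom_sum ((ζ⁻¹) ^ k) n
          have h5 : ((ζ⁻¹) ^ k) ^ n = 1 := by
            rw [← pow_mul, mul_comm, pow_mul, inv_pow, hζn, inv_one, one_pow]
          rw [h5, sub_self] at h4
          rcases mul_eq_zero.1 h4 with h6 | h6
          · exact absurd (sub_eq_zero.1 h6).symm h1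
          · exact h6
        rw [h2, zero_smul]
    rw [Finset.sum_congr rfl e1, Finset.sum_ite_eq' (Finset.range n) 0,
      if_pos (Finset.mem_range.2 hn), smul_smul, inv_mul_cancel₀ hnK, one_smul]
  -- traces
  have hm : ∀ i, ∃ m : ℕ, LinearMap.trace K W (P i) = (m : K) := by
    intro i
    have h1 : IsIdempotentElem (P i) := hidem i
    exact ⟨_, (LinearMap.isProj_range_iff_isIdempotentElem _).2 h1 |>.trace⟩
  choose m hm using hm
  refine ⟨m, fun k => ?_⟩
  have h1 : U ^ k = ∑ i ∈ Finset.range n, ζ ^ (i * k) • P i := by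
    rw [← mul_one (U ^ k), ← hsum, Finset.mul_sum]
    exact Finset.sum_congr rfl fun i _ => hUkP i k
  rw [h1, map_sum]
  refine Finset.sum_congr rfl fun i _ => ?_
  rw [map_smul, hm, smul_eq_mul]

theorem exists_aut (K : Type*) [Field K] [Algebra ℚ K] (n j : ℕ) (hn : 0 < n) (hj : j.Coprime n)
    [NeZero n] [IsCyclotomicExtension {n} ℚ K] :
    ∃ (ζ : K) (σ : K ≃ₐ[ℚ] K), IsPrimitiveRoot ζ n ∧ σ ζ = ζ ^ j := by
  have hζ : IsPrimitiveRoot (IsCyclotomicExtension.zeta n ℚ K) n :=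
    IsCyclotomicExtension.zeta_spec n ℚ K
  have hζj := hζ.pow_of_coprime j hj
  exact ⟨_, IsCyclotomicExtension.fromZetaAut hζj (Polynomial.cyclotomic.irreducible_rat hn), hζ,
    IsCyclotomicExtension.fromZetaAut_spec hζj (Polynomial.cyclotomic.irreducible_rat hn)⟩

/-- The trace of `T ^ j` is the trace of `T` for an endomorphism of order dividing `n` of a
rational vector space, if `j` is prime to `n`. -/
theorem trace_pow_coprime (V : Type*) [AddCommGroup V] [Module ℚ V] [FiniteDimensional ℚ V]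
    (T : V →ₗ[ℚ] V) (n j : ℕ) (hn : 0 < n) (hT : T ^ n = 1) (hj : j.Coprime n)
    (K : Type*) [Field K] [Algebra ℚ K] [NeZero n] [IsCyclotomicExtension {n} ℚ K] :
    LinearMap.trace ℚ V (T ^ j) = LinearMap.trace ℚ V T := by
  have hK : CharZero K := algebraRat.charZero K
  obtain ⟨ζ, σ, hζ, hσ⟩ := exists_aut K n j hn hj
  have hUk : ∀ k : ℕ, (T.baseChange K) ^ k = (T ^ k).baseChange K := by
    intro k
    induction k with
    | zero =>
      rw [pow_zero, pow_zero]
      exact (LinearMap.baseChange_id).symm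
    | succ k ih =>
      rw [pow_succ, ih, pow_succ]
      exact (LinearMap.baseChange_comp _ _ ).symm
  have hUn : (T.baseChange K) ^ n = 1 := by
    rw [hUk, hT]
    exact LinearMap.baseChange_id
  have htr : ∀ k : ℕ, LinearMap.trace K (TensorProduct ℚ K V) ((T.baseChange K) ^ k) =
      algebraMap ℚ K (LinearMap.trace ℚ V (T ^ k)) := by
    intro k
    rw [hUk]
    exact LinearMap.trace_baseChange (T ^ k) K
  obtain ⟨m, hk⟩ := trace_pow_eq_sum K (TensorProduct ℚ K V) (T.baseChange K) n hn hUn ζ hζ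
  have h1 : algebraMap ℚ K (LinearMap.trace ℚ V T) = ∑ i ∈ Finset.range n, ζ ^ i * (m i : K) := by
    have := hk 1
    rw [htr, pow_one] at this
    rw [this]
    exact Finset.sum_congr rfl fun i _ => by rw [mul_one]
  have h2 : algebraMap ℚ K (LinearMap.trace ℚ V (T ^ j)) =
      ∑ i ∈ Finset.range n, ζ ^ (i * j) * (m i : K) := by
    rw [← htr]
    exact hk j
  have h3 : σ (algebraMap ℚ K (LinearMap.trace ℚ V T)) =
      algebraMap ℚ K (LinearMap.trace ℚ V (T ^ j)) := by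
    rw [h1, h2, map_sum]
    refine Finset.sum_congr rfl fun i _ => ?_
    rw [map_mul, map_pow, hσ, map_natCast, ← pow_mul, mul_comm j i]
  rw [AlgEquiv.commutes] at h3
  exact ((algebraMap ℚ K).injective h3).symm

/-- The statement for the project KN. -/
theorem ratl_core : ∀ (V : Type) [AddCommGroup V] [Module ℚ V] [FiniteDimensional ℚ V]
    (T : V →ₗ[ℚ] V) (n j : ℕ), 0 < n → T ^ n = 1 → j.Coprime n →
    LinearMap.trace ℚ V (T ^ j) = LinearMap.trace ℚ V T := by
  intro V _ _ _ T n j hn hT hj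
  have : NeZero n := ⟨hn.ne'⟩
  have : NeZero ((n : ℕ) : ℚ) := ⟨Nat.cast_ne_zero.2 hn.ne'⟩
  exact @trace_pow_coprime V _ _ _ T n j hn hT hj (CyclotomicField n ℚ) _
    (CyclotomicField.algebra n ℚ) _ (CyclotomicField.isCyclotomicExtension n ℚ)

end Pool.Agent.Y210.KN
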