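import Pool.Agent.Y1.KN.Stm8
import Pool.Agent.Y210.KN.RatlCore

set_option autoImplicit false

namespace Pool.Agent.Y210.KN

/-- RATL of the project KN. -/
theorem ratl : Pool.Agent.Y1.KN.P_ratl := ratl_core

end Pool.Agent.Y210.KN
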