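import Mathlib
import Pool.Agent.Y1.KN.Sub
import Pool.Agent.TH170.QC.Orth
import Pool.Agent.Y674.KN.Order

/-!
# Classes of small dimension
-/

set_option autoImplicit false
set_option linter.unusedSectionVars false
set_option linter.unusedVariables false

namespace Pool.Agent.Y210.KN

open Finset Module Pool.Agent.TH170.MF Pool.Agent.TH170.QC Pool.Agent.TH170.QE
  Pool.Agent.TH170.FW Pool.Agent.Y1.KN
open scoped Pointwise

section

variable {G X : Type*} [Group G] [Fintype G] [MulAction G X] [Fintype X]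

theorem triv_of_pow {p : ℕ} (hp : p.Prime) {S : Submodule ℚ (X → ℚ)} (hS : Invariant G S)
    (hdim : finrank ℚ S + 1 < p) {γ : G} (h : ∀ s ∈ S, ∀ x, s ((γ ^ p) • x) = s x) :
    ∀ s ∈ S, ∀ x, s (γ • x) = s x := by
  by_contra hne
  obtain ⟨f, hf⟩ : ∃ f : Module.End ℚ S, ∀ s : S, ((f s : S) : X → ℚ) = tr γ (s : X → ℚ) :=
    ⟨(tr γ).restrict fun x hx => tr_mem hS γ hx, fun _ => rfl⟩
  have hpow : ∀ (n : ℕ) (s : S), (((f ^ n) s : S) : X → ℚ) = tr (γ ^ n) (s : X → ℚ) := by
    intro n
    induction n with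
    | zero =>
      intro s
      rw [pow_zero, pow_zero, tr_one]
      rfl
    | succ n ih =>
      intro s
      rw [pow_succ', pow_succ, Module.End.mul_apply, hf, ih, tr_tr]
  have h1 : f ^ p = 1 := by
    ext s : 1
    refine Subtype.ext ?_
    rw [hpow]
    funext x
    exact h s s.2 x
  have h2 : f ≠ 1 := by
    intro h
    apply hne
    intro s hs x
    have h1 := hf ⟨s, hs⟩
    rw [h] at h1
    exact (congrFun h1 x).symm
  have := Pool.Agent.Y674.KN.end_order f hp h1 h2
  omega

variable {ι : Type*} (S : ι → Submodule ℚ (X → ℚ))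

/-- The elements that act trivially on all spaces. -/
def allKern (hS : ∀ i, Invariant G (S i)) : Subgroup G := ⨅ i, kern G (S i) (hS i)

theorem allKern_normal (hS : ∀ i, Invariant G (S i)) : (allKern S hS).Normal :=
  Subgroup.normal_iInf_normal fun i => kern_normal (hS i)

theorem not_dvd_index {p : ℕ} (hp : p.Prime) (hS : ∀ i, Invariant G (S i))
    (hdim : ∀ i, finrank ℚ (S i) + 1 < p) : ¬ p ∣ (allKern S hS).index := by
  intro hdvd
  have : Fact p.Prime := ⟨hp⟩
  have hn : (allKern S hS).Normal := allKern_normal S hS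
  rw [Subgroup.index_eq_card] at hdvd
  obtain ⟨g, hg⟩ := exists_prime_orderOf_dvd_card' p hdvd
  obtain ⟨γ, rfl⟩ := QuotientGroup.mk_surjective g
  have h1 : γ ^ p ∈ allKern S hS := by
    rw [← QuotientGroup.eq_one_iff, QuotientGroup.mk_pow, ← hg, pow_orderOf_eq_one]
  have h2 : γ ∈ allKern S hS := by
    rw [allKern, Subgroup.mem_iInf] at h1 ⊢
    intro i
    exact triv_of_pow hp (hS i) (hdim i) (h1 i)
  rw [← QuotientGroup.eq_one_iff] at h2
  rw [h2, orderOf_one] at hg
  exact hp.one_lt.ne hg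

/-- The elements that do not change the values at the base point. -/
def baseSub (G : Type*) [Group G] [MulAction G X] (S : ι → Submodule ℚ (X → ℚ)) (x₀ : X) :
    Subgroup G where
  carrier := {l | ∀ (γ : G) (i : ι), ∀ f ∈ S i, f ((γ * l) • x₀) = f (γ • x₀)}
  mul_mem' := by
    intro a b ha hb γ i f hf
    rw [← mul_assoc, hb _ i f hf, ha _ i f hf]
  one_mem' := by
    intro γ i f _
    rw [mul_one]
  inv_mem' := by
    intro a ha γ i f hf
    rw [← ha (γ * a⁻¹) i f hf, inv_mul_cancel_right]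

theorem mem_baseSub (x₀ : X) (l : G) : l ∈ baseSub G S x₀ ↔
    ∀ (γ : G) (i : ι), ∀ f ∈ S i, f ((γ * l) • x₀) = f (γ • x₀) := Iff.rfl

theorem stab_le (x₀ : X) : MulAction.stabilizer G x₀ ≤ baseSub G S x₀ := by
  intro l hl γ i f _
  rw [mul_smul, MulAction.mem_stabilizer_iff.1 hl]

theorem allKern_le (hS : ∀ i, Invariant G (S i)) (x₀ : X) : allKern S hS ≤ baseSub G S x₀ := by
  intro l hl γ i f hf
  have h1 := (allKern_normal S hS).conj_mem l hl γ
  rw [allKern, Subgroup.mem_iInf] at h1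
  have h2 := h1 i f hf (γ • x₀)
  rw [smul_smul, inv_mul_cancel_right] at h2
  exact h2

/-- The odd functions that are invariant under a subgroup. -/
def oddInv (L : Subgroup G) (c : G) (x₀ : X) : Submodule ℚ (X → ℚ) where
  carrier := {f | (∀ x, f (c • x) = - f x) ∧ ∀ l ∈ L, ∀ γ : G, f ((γ * l) • x₀) = f (γ • x₀)}
  zero_mem' := ⟨fun x => by simp, fun _ _ _ => rfl⟩
  add_mem' := by
    rintro u v ⟨h1, h2⟩ ⟨h3, h4⟩
    refine ⟨fun x => ?_, fun l hl γ => ?_⟩
    · rw [Pi.add_apply, Pi.add_apply, h1, h3]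
      ring
    · rw [Pi.add_apply, Pi.add_apply, h2 l hl, h4 l hl]
  smul_mem' := by
    rintro q u ⟨h1, h2⟩
    refine ⟨fun x => ?_, fun l hl γ => ?_⟩
    · rw [Pi.smul_apply, Pi.smul_apply, h1, smul_eq_mul, smul_eq_mul]
      ring
    · rw [Pi.smul_apply, Pi.smul_apply, h2 l hl]

theorem finrank_oddInv_le [MulAction.IsPretransitive G X] (L : Subgroup G) {c : G}
    (hc : c * c = 1) (hcen : ∀ x, c * x = x * c) (hcL : c ∉ L) (x₀ : X) :
    2 * finrank ℚ (oddInv L c x₀) ≤ L.index := by
  classical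
  set L' : Subgroup G := L ⊔ Subgroup.zpowers c with hL'
  have hnor : (Subgroup.zpowers c).Normal := by
    constructor
    intro n hn g
    obtain ⟨k, rfl⟩ := Subgroup.mem_zpowers_iff.1 hn
    have h1 : Commute g (c ^ k) := Commute.zpow_right (show g * c = c * g from (hcen g).symm) k
    rw [h1.eq, mul_inv_cancel_right]
    exact hn
  have hzp : ∀ z ∈ Subgroup.zpowers c, z = 1 ∨ z = c := by
    intro z hz
    obtain ⟨k, rfl⟩ := Subgroup.mem_zpowers_iff.1 hz
    have h2 : c ^ (2 : ℤ) = 1 := by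
      rw [zpow_two, hc]
    rcases Int.even_or_odd k with ⟨j, hj⟩ | ⟨j, hj⟩
    · left
      rw [hj, ← two_mul, zpow_mul, h2, one_zpow]
    · right
      rw [hj, zpow_add, zpow_mul, h2, one_zpow, one_mul, zpow_one]
  have hdec : ∀ l ∈ L', ∃ l₀ ∈ L, l = l₀ ∨ l = l₀ * c := by
    intro l hl
    have h1 : l ∈ ((L : Set G) * (Subgroup.zpowers c : Set G)) := by
      rw [← Subgroup.mul_normal]
      exact hl
    obtain ⟨l₀, hl₀, z, hz, rfl⟩ := Set.mem_mul.1 h1
    refine ⟨l₀, hl₀, ?_⟩
    rcases hzp z hz with rfl | rfl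
    · left
      rw [mul_one]
    · right
      rfl
  -- the dimension is at most the index of `L'`
  have h1 : finrank ℚ (oddInv L c x₀) ≤ L'.index := by
    let Φ : oddInv L c x₀ →ₗ[ℚ] ((G ⧸ L') → ℚ) :=
      { toFun := fun f q => (f : X → ℚ) (q.out • x₀)
        map_add' := fun _ _ => rfl
        map_smul' := fun _ _ => rfl }
    have hinj : Function.Injective Φ := by
      rw [injective_iff_map_eq_zero]
      intro f hf
      apply Subtype.ext
      funext x
      obtain ⟨γ, rfl⟩ := MulAction.exists_smul_eq G x₀ x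
      have h2 : (f : X → ℚ) (((γ : G ⧸ L').out) • x₀) = 0 := congrFun hf (γ : G ⧸ L')
      obtain ⟨⟨l, hl⟩, hout⟩ := QuotientGroup.mk_out_eq_mul L' γ
      rw [hout] at h2
      obtain ⟨ho, hinv⟩ := f.2
      obtain ⟨l₀, hl₀, h3 | h3⟩ := hdec l hl
      · simp only at h2
        rw [h3, hinv l₀ hl₀] at h2
        exact h2
      · simp only at h2
        rw [h3, ← mul_assoc, ← hcen, mul_smul, ho, hinv l₀ hl₀, neg_eq_zero] at h2
        exact h2
    have h2 := LinearMap.finrank_le_finrank_of_injective hinj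
    rw [finrank_fintype_fun_eq_card, ← Nat.card_eq_fintype_card] at h2
    rwa [Subgroup.index_eq_card]
  have h2 : L.relIndex L' * L'.index = L.index := Subgroup.relIndex_mul_index le_sup_left
  have h3 : L.relIndex L' ≠ 1 := by
    intro h
    rw [Subgroup.relIndex_eq_one] at h
    exact hcL (h (Subgroup.mem_sup_right (Subgroup.mem_zpowers c)))
  have h4 : L.index ≠ 0 := Subgroup.index_ne_zero_of_finite
  have h5 : L.relIndex L' ≠ 0 := by
    intro h
    rw [h, zero_mul] at h2
    exact h4 h2.symm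
  have h6 : 2 ≤ L.relIndex L' := by omega
  calc 2 * finrank ℚ (oddInv L c x₀) ≤ L.relIndex L' * L'.index := Nat.mul_le_mul h6 h1
    _ = L.index := h2

end

theorem small_core (G X : Type) [Group G] [Fintype G] [MulAction G X] [Fintype X]
    [MulAction.IsPretransitive G X] (c : G) (p m : ℕ) (ι : Type) [Fintype ι]
    (S : ι → Submodule ℚ (X → ℚ)) (hc : c * c = 1) (hcen : ∀ x, c * x = x * c)
    (hfree : ∀ x : X, c • x ≠ x) (hp : p.Prime) (hpm : ¬ p ∣ 2 * m)
    (hcard : Fintype.card X = 2 * (m * p)) (hS : ∀ i, S i ∈ MinInv G (fun x : X => c • x))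
    (hkil : ∀ i j, i ≠ j →
      killers G (S i : Set (X → ℚ)) ≠ killers G (S j : Set (X → ℚ)))
    (hdim : ∀ i, finrank ℚ (S i) + 1 < p) : ∑ i, finrank ℚ (S i) ≤ m := by
  classical
  rcases isEmpty_or_nonempty ι with hι | ⟨⟨i₀⟩⟩
  · simp
  have hm : 0 < m := by
    rcases Nat.eq_zero_or_pos m with h | h
    · exfalso
      apply hpm
      rw [h]
      simp
    · exact h
  have hX : Nonempty X := by
    rw [← Fintype.card_pos_iff, hcard]
    have := hp.pos
    positivity
  obtain ⟨x₀⟩ := hX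
  have hinv : ∀ i, Invariant G (S i) := fun i => (hS i).2.1
  set L : Subgroup G := baseSub G S x₀ with hL
  -- the index
  have h1 : L.index ∣ 2 * m := by
    have h2 : L.index ∣ Nat.card X := by
      rw [← MulAction.index_stabilizer_of_transitive G x₀]
      exact Subgroup.index_dvd_of_le (stab_le S x₀)
    have h3 : L.index ∣ (allKern S hinv).index := Subgroup.index_dvd_of_le (allKern_le S hinv x₀)
    have h4 : ¬ p ∣ L.index := fun h => not_dvd_index S hp hinv hdim (h.trans h3)
    have h5 : Nat.Coprime L.index p := ((Nat.Prime.coprime_iff_not_dvd hp).2 h4).symm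
    rw [Nat.card_eq_fintype_card, hcard, ← mul_assoc] at h2
    exact h5.dvd_of_dvd_mul_right h2
  have h2 : L.index ≤ 2 * m := Nat.le_of_dvd (by omega) h1
  -- c is not in L
  have hcL : c ∉ L := by
    intro h
    apply (hS i₀).1
    rw [eq_bot_iff]
    intro f hf
    rw [Submodule.mem_bot]
    funext x
    obtain ⟨γ, rfl⟩ := MulAction.exists_smul_eq G x₀ x
    have h3 := h γ i₀ f hf
    rw [← hcen, mul_smul] at h3
    have h4 : f (c • γ • x₀) = - f (γ • x₀) := (hS i₀).2.2.1 f hf _
    rw [h4] at h3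
    rw [Pi.zero_apply]
    linarith
  have h3 := finrank_oddInv_le L hc hcen hcL x₀
  have hinjS : Function.Injective S := by
    intro i j hij
    by_contra hne
    exact hkil i j hne (by rw [hij])
  have h4 : ∑ i, finrank ℚ (S i) ≤ finrank ℚ (oddInv L c x₀) := by
    have h5 := sum_finrank_le_of_orth (V := oddInv L c x₀) (Finset.univ.image S)
      (by
        intro T hT
        obtain ⟨i, _, rfl⟩ := Finset.mem_image.1 hT
        intro f hf
        exact ⟨fun x => (hS i).2.2.1 f hf x, fun l hl γ => hl γ i f hf⟩)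
      (by
        intro T hT T' hT' hne
        obtain ⟨i, _, rfl⟩ := Finset.mem_image.1 hT
        obtain ⟨j, _, rfl⟩ := Finset.mem_image.1 hT'
        exact orth_of_killers_ne (hS i) (hS j) (hkil i j fun h => hne (by rw [h])))
    rwa [Finset.sum_image fun i _ j _ h => hinjS h] at h5
  omega

end Pool.Agent.Y210.KN
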