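import Pool.Agent.Y1.KN.Stm9
import Pool.Agent.Y210.KN.SmallCore

/-!
# The classes of dimension less than `p - 1`
-/

set_option autoImplicit false

namespace Pool.Agent.Y210.KN

theorem small : Pool.Agent.Y1.KN.P_small := by
  intro G X _ _ _ _ _ c p m ι _ S hc hcen hfree hp hpm hcard hS hkil hdim
  exact small_core G X c p m ι S hc hcen hfree hp hpm hcard hS hkil hdim

end Pool.Agent.Y210.KN
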